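import Pool.Agent.R123.Toric.Zero

/-!
# Toric g-contribution polynomials are real-rooted (MP_141d57, Q1)

`gPoly n j = ∑_{k=0}^{min(⌊n/2⌋, n-j)} C_{n-k-j} * binom(n-k,k) * (x-1)^k`, `C_m` the Catalan numbers.
For all `n ≥ 1` and `0 ≤ j ≤ ⌊n/2⌋` this real polynomial is nonzero and all its complex roots are
real.
-/

namespace Pool.Agent.Results.MP_141d57_co.GContribRealRooted

open Polynomial Finset R123.Toric

/-- A real polynomial is real-rooted if it is nonzero and all its complex roots are real. -/
def RealRooted (p : ℝ[X]) : Prop := p ≠ 0 ∧ ∀ z : ℂ, aeval z p = 0 → z.im = 0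

/-- The toric g-contribution polynomial. -/
noncomputable def gPoly (n j : ℕ) : ℝ[X] :=
  ∑ k ∈ range (min (n / 2) (n - j) + 1),
    C ((catalan (n - k - j) * (n - k).choose k : ℕ) : ℝ) * (X - 1) ^ k

theorem gPoly_eq (n j : ℕ) (hj : j ≤ n / 2) : gPoly n j = ∑ k ∈ range (n / 2 + 1),
    C ((catalan (n - k - j) * (n - k).choose k : ℕ) : ℝ) * (X - 1) ^ k := by
  unfold gPoly
  rw [min_eq_left (by omega)]

theorem gPoly_one (n j : ℕ) (hj : j ≤ n / 2) : 0 < (gPoly n j).eval 1 := by
  rw [gPoly_eq n j hj, eval_finsetSum, sum_eq_single 0]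
  · simp only [eval_C, pow_zero, mul_one, Nat.sub_zero, Nat.choose_zero_right]
    have h := succ_mul_catalan_eq_centralBinom (n - j)
    have h2 := Nat.centralBinom_pos (n - j)
    have h3 : 0 < catalan (n - j) := by
      rcases Nat.eq_zero_or_pos (catalan (n - j)) with h4 | h4
      · rw [h4] at h
        omega
      · exact h4
    exact_mod_cast h3
  · intro k _ hk
    simp [hk]
  · intro h
    exact absurd (mem_range.mpr (by omega)) h

theorem real_of_splits {f : ℝ[X]} (hf : f.Splits) (h0 : f ≠ 0) (z : ℂ) (hz : aeval z f = 0) :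
    ∃ r : ℝ, z = r := by
  have h : (f.map (algebraMap ℝ ℂ)).IsRoot z := by
    rw [IsRoot.def, eval_map_algebraMap]
    exact hz
  obtain ⟨r, hr⟩ := hf.mem_range_of_isRoot h0 h
  exact ⟨r, by rw [← hr]; rfl⟩

theorem gPoly_aeval (n j : ℕ) (hj : j ≤ n / 2) (z : ℂ) : aeval z (gPoly n j) =
    ∑ k ∈ range (n / 2 + 1),
      ((catalan (n - k - j) * (n - k).choose k : ℕ) : ℂ) * (z - 1) ^ k := by
  rw [gPoly_eq n j hj, map_sum]
  apply sum_congr rfl
  intro k _
  simp

/-- MP_141d57, Q1: for every `n ≥ 1` and every `0 ≤ j ≤ ⌊n/2⌋` the toric g-contribution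
polynomial `g_{n,j}` is real-rooted. -/
theorem result : ∀ n j : ℕ, 1 ≤ n → j ≤ n / 2 → RealRooted (gPoly n j) := by
  intro n j _ hj
  have hne : gPoly n j ≠ 0 := by
    intro h
    have := gPoly_one n j hj
    rw [h] at this
    simp at this
  refine ⟨hne, fun z hz => ?_⟩
  rw [gPoly_aeval n j hj] at hz
  obtain ⟨y, hy⟩ : ∃ y, y = z - 1 := ⟨_, rfl⟩
  rw [← hy] at hz
  have hy0 : y ≠ 0 := by
    intro h0
    rw [h0] at hy
    have h1 : z = ((1 : ℝ) : ℂ) := by
      rw [Complex.ofReal_one]
      linear_combination -hy
    have h2 := gPoly_one n j hj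
    have h3 : aeval z (gPoly n j) = (((gPoly n j).eval 1 : ℝ) : ℂ) := by
      rw [h1]
      exact aeval_ofReal (gPoly n j) 1
    rw [gPoly_aeval n j hj, ← hy] at h3
    rw [h0] at hz
    rw [hz] at h3
    have h4 : (gPoly n j).eval 1 = 0 := by exact_mod_cast h3.symm
    linarith
  -- the value `w = -1/y` is real
  have key : ∃ r : ℝ, -(1 / y) = (r : ℂ) := by
    rcases Nat.eq_zero_or_pos j with h0 | h0
    · subst h0
      apply real_of_splits (tz_splits n) _ _ _
      · intro h
        have := tz_one n
        rw [h] at this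
        simp at this
      · unfold tz
        rw [map_sum]
        have h5 : ∀ k ∈ range (n / 2 + 1), aeval (-(1 / y)) (C (A n 0 k) * X ^ (n / 2 - k)) =
            (-(1 / y)) ^ (n / 2) *
              (((catalan (n - k - 0) * (n - k).choose k : ℕ) : ℂ) * y ^ k) := by
          intro k hk
          rw [mem_range] at hk
          have h6 : (-(1 / y)) ^ (n / 2) = (-(1 / y)) ^ (n / 2 - k) * (-(1 / y)) ^ k := by
            rw [← pow_add]
            congr 1
            omega
          have h7 : (-(1 / y)) ^ k * y ^ k = (-1) ^ k := by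
            rw [← mul_pow]
            congr 1
            field_simp
          have h8 : aeval (-(1 / y)) (C (A n 0 k) * X ^ (n / 2 - k)) =
            (-1) ^ k * ((catalan (n - k - 0) * (n - k).choose k : ℕ) : ℂ) *
              (-(1 / y)) ^ (n / 2 - k) := by
            unfold A
            simp
          rw [h8, h6, ← h7]
          ring
        rw [sum_congr rfl h5, ← mul_sum, hz, mul_zero]
    · obtain ⟨u, hu⟩ : ∃ u : ℂ, u ^ 2 = -(1 / y) :=
        IsAlgClosed.exists_pow_nat_eq _ (by norm_num)
      have h9 : aeval u (P n (A n j)) = 0 := by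
        unfold P
        rw [map_sum]
        have h5 : ∀ k ∈ range (n / 2 + 1), aeval u (C (A n j k) * X ^ (n - 2 * k)) =
            u ^ n * (((catalan (n - k - j) * (n - k).choose k : ℕ) : ℂ) * y ^ k) := by
          intro k hk
          rw [mem_range] at hk
          have h6 : u ^ n = u ^ (n - 2 * k) * (-(1 / y)) ^ k := by
            rw [← hu, ← pow_mul, ← pow_add]
            congr 1
            omega
          have h7 : (-(1 / y)) ^ k * y ^ k = (-1) ^ k := by
            rw [← mul_pow]
            congr 1
            field_simp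
          have h8 : aeval u (C (A n j k) * X ^ (n - 2 * k)) =
            (-1) ^ k * ((catalan (n - k - j) * (n - k).choose k : ℕ) : ℂ) *
              u ^ (n - 2 * k) := by
            unfold A
            simp
          rw [h8, h6, ← h7]
          ring
        rw [sum_congr rfl h5, ← mul_sum, hz, mul_zero]
      have hPne : P n (A n j) ≠ 0 := by
        intro h
        have h10 : (P n (A n j)).coeff n = A n j 0 := by
          unfold P
          rw [finsetSum_coeff, sum_eq_single 0]
          · simp
          · intro k hk hk0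
            rw [mem_range] at hk
            rw [coeff_C_mul_X_pow]
            rw [if_neg (by omega)]
          · intro h
            exact absurd (mem_range.mpr (by omega)) h
        rw [h] at h10
        have h11 : A n j 0 = (gPoly n j).eval 1 := by
          rw [gPoly_eq n j hj, eval_finsetSum, sum_eq_single 0]
          · simp [A]
          · intro k _ hk
            simp [hk]
          · intro h
            exact absurd (mem_range.mpr (by omega)) h
        have h12 := gPoly_one n j hj
        rw [← h11, ← h10] at h12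
        simp at h12
      obtain ⟨r, hr⟩ := real_of_splits (splits_pos n j h0 (by omega)) hPne u h9
      exact ⟨r ^ 2, by rw [← hu, hr]; push_cast; rfl⟩
  obtain ⟨r, hr⟩ := key
  have hyr : y = ((-(1 / r) : ℝ) : ℂ) := by
    have h13 : (r : ℂ) * y = -1 := by
      rw [← hr]
      field_simp
    have hr0 : (r : ℂ) ≠ 0 := by
      intro h
      rw [h] at h13
      simp at h13
    push_cast
    field_simp
    linear_combination h13
  have hz2 : z = ((1 + -(1 / r) : ℝ) : ℂ) := by
    push_cast
    push_cast at hyr
    rw [← hyr, hy]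
    ring
  rw [hz2]
  exact Complex.ofReal_im _

end Pool.Agent.Results.MP_141d57_co.GContribRealRooted
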